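import Pool.Agent.P.MP_23b8d1_al.TFinal

namespace Pool.Agent.Results.MP_23b8d1_al.Thompson

open N5f09da3c Pool.Agent.P.MP_23b8d1_al.T

/-- The commutator subgroup of the group of piecewise linear homeomorphisms of the unit interval
with slopes in the powers of `p` and break points in `A` is simple, and each of its bi-invariant
partial orders is contained in one of four fixed bi-invariant linear orders. -/
theorem result (p : ℝ) (A : AddSubgroup ℝ) (hp : 1 < p) (hA : A ≠ ⊥)
    (hmul : ∀ x, p * x ∈ A ↔ x ∈ A) (hdiv : ∀ x ∈ A, x / (p - 1) ∈ A) :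
    IsSimpleGroup (commutator (Th p A)) ∧
      ∃ s : Fin 4 → commutator (Th p A) → commutator (Th p A) → Prop,
        (∀ i, IsLinearOrder (commutator (Th p A)) (s i) ∧
          IsBiInvariant (commutator (Th p A)) (s i)) ∧
        ∀ r : commutator (Th p A) → commutator (Th p A) → Prop,
          IsPartialOrder (commutator (Th p A)) r → IsBiInvariant (commutator (Th p A)) r →
            ∃ i, ∀ x y, r x y → s i x y := by
  have hy : Hyp p A := ⟨hp, hA, hmul, hdiv⟩
  have := isSimpleGroup_D1 hy
  exact ⟨(commEquiv p A).isSimpleGroup, four_orders hy (commEquiv p A)⟩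

end Pool.Agent.Results.MP_23b8d1_al.Thompson
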